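import Pool.Agent.Q20.NonCoprime.Proof

/-!
Every isomorphism between generalized non-coprime graphs of finite groups maps the set of
vertices coming from the subgroup onto the corresponding set.
-/

namespace Pool.Agent.Results.MP_acde3d_al.IsoPreservesSubgroup

open Q20.NonCoprime

/-- **Positive answer to Q1, in a stronger form.**  If `H`, `H'` are non-trivial subgroups of
the finite groups `G`, `G'`, then *every* isomorphism from the generalized non-coprime graph
of `(G, H)` to that of `(G', H')` maps the non-identity elements of `H` onto the
non-identity elements of `H'`. -/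
theorem result {G G' : Type*} [Group G] [Group G'] [Finite G] [Finite G']
    (H : Subgroup G) (H' : Subgroup G') (hH : H ≠ ⊥) (hH' : H' ≠ ⊥)
    (φ : genNonCoprimeGraph G H ≃g genNonCoprimeGraph G' H') :
    φ '' {x | x.1 ∈ H} = {y | y.1 ∈ H'} :=
  main H H' hH hH' φ

end Pool.Agent.Results.MP_acde3d_al.IsoPreservesSubgroup
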